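import Pool.Agent.H30.T1.Loc
import Pool.Agent.H93.HYP.LattA

/-!
# T1, LOCK: one prime
-/

set_option autoImplicit false
set_option linter.overlappingInstances false
set_option linter.unusedSectionVars false

namespace Pool.T1

open Polynomial Matrix Pool.HYP Pool.TOW Pool.AVS IsDedekindDomain

section One

variable {R : Type} [CommRing R] [IsDedekindDomain R] {K : Type} [Field K] [Algebra R K]
  [IsFractionRing R K] {P : HeightOneSpectrum R} {k : Type} [Field k] (φ : R →+* k)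
  (hφ0 : ∀ a : R, φ a = 0 ↔ a ∈ P.asIdeal) (hφs : Function.Surjective φ)

theorem map_inj_mat {n : ℕ} {A B : Matrix (Fin n) (Fin n) R}
    (h : A.map (algebraMap R K) = B.map (algebraMap R K)) : A = B := by
  ext1 i j
  exact IsFractionRing.injective R K (congrFun (congrFun h i) j)

include hφ0

theorem den_fin_rp {ι : Type} [Fintype ι] (x : ι → K) (h : ∀ i, x i ∈ RP K P) :
    ∃ (m : R) (a : ι → R), m ∉ P.asIdeal ∧ ∀ i, algebraMap R K m * x i = algebraMap R K (a i) := by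
  classical
  have h1 : ∀ i, ∃ m : R, m ∉ P.asIdeal ∧ ∃ a : R, algebraMap R K m * x i = algebraMap R K a := h
  choose m hm a ha using h1
  refine ⟨∏ i, m i, fun i => (∏ k ∈ Finset.univ.erase i, m k) * a i, ?_, ?_⟩
  · rw [← hφ0, map_prod]
    exact Finset.prod_ne_zero_iff.2 fun i _ => fun h0 => hm i ((hφ0 _).1 h0)
  · intro i
    rw [← Finset.prod_erase_mul _ _ (Finset.mem_univ i), map_mul, map_mul, ← ha i]
    ring

theorem lock_det {n : ℕ} {f p : R[X]} (hf : f.Monic) (hn : f.natDegree = n)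
    (hc : IsCoprime (p.map φ) (f.map φ)) : (gr 0 n f p).det ∉ P.asIdeal := by
  rw [← hφ0, RingHom.map_det, RingHom.mapMatrix_apply, gr_map φ hf]
  have hfm : (f.map φ).Monic := hf.map φ
  have hnm : (f.map φ).natDegree = n := by rw [hf.natDegree_map, hn]
  have h3 := gr_det_unit hfm hc
  rw [hnm] at h3
  exact h3.ne_zero

include hφs

theorem lock_std {n : ℕ} {f p : R[X]} (hf : f.Monic) (hn : f.natDegree = n)
    (hpc : IsCoprime (p.map φ) (f.map φ)) {κ : Matrix (Fin n) (Fin n) K}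
    {G S : Matrix (Fin n) (Fin n) R} (hκ1 : MIn (RP K P) κ) (hGd : G.det ∉ P.asIdeal)
    (hG : κᵀ * gr 0 n (fk K f) (fk K p) * κ = G.map (algebraMap R K))
    (hS : κᵀ * gr 1 n (fk K f) (fk K p) * κ = S.map (algebraMap R K))
    (hq : ∃ q : R[X], f.map φ ∣ p.map φ - q.map φ ^ 2) : StdP n P.asIdeal f G S := by
  obtain ⟨m, a, hm, ha⟩ := den_fin_rp φ hφ0 (fun i : Fin n × Fin n => κ i.1 i.2)
    fun i => hκ1 i.1 i.2
  obtain ⟨κ₁, hκ₁⟩ : ∃ κ₁ : Matrix (Fin n) (Fin n) R, κ₁ = Matrix.of fun i j => a (i, j) :=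
    ⟨_, rfl⟩
  have hmκ : algebraMap R K m • κ = κ₁.map (algebraMap R K) := by
    ext1 i j
    rw [hκ₁]
    exact ha (i, j)
  have hm0 : φ m ≠ 0 := fun h => hm ((hφ0 m).1 h)
  have hrf : ∀ k (T : Matrix (Fin n) (Fin n) R),
      κᵀ * gr k n (fk K f) (fk K p) * κ = T.map (algebraMap R K) →
      m ^ 2 • T = κ₁ᵀ * gr k n f p * κ₁ := by
    intro k T hT
    apply map_inj_mat (K := K)
    have e1 : (κ₁ᵀ * gr k n f p * κ₁).map (algebraMap R K) =
        (κ₁.map (algebraMap R K))ᵀ * gr k n (fk K f) (fk K p) * κ₁.map (algebraMap R K) := by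
      rw [Matrix.map_mul, Matrix.map_mul, Matrix.transpose_map, gr_map _ hf]
    rw [e1, ← hmκ, Matrix.transpose_smul, Matrix.smul_mul, Matrix.smul_mul, Matrix.mul_smul,
      hT, smul_smul]
    ext i j
    simp only [Matrix.map_apply, Matrix.smul_apply, smul_eq_mul, map_mul, map_pow]
    ring
  -- over the residue field
  have hfm : (f.map φ).Monic := hf.map φ
  have hnm : (f.map φ).natDegree = n := by rw [hf.natDegree_map, hn]
  have hrk : ∀ k (T : Matrix (Fin n) (Fin n) R),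
      κᵀ * gr k n (fk K f) (fk K p) * κ = T.map (algebraMap R K) →
      (φ m) ^ 2 • T.map φ = (κ₁.map φ)ᵀ * gr k n (f.map φ) (p.map φ) * κ₁.map φ := by
    intro k T hT
    have h1 := congrArg (fun M : Matrix (Fin n) (Fin n) R => M.map φ) (hrf k T hT)
    simp only [Matrix.map_mul, gr_map _ hf] at h1
    rw [← Matrix.transpose_map, ← h1]
    ext i j
    simp only [Matrix.map_apply, Matrix.smul_apply, smul_eq_mul, map_mul, map_pow]
  have hdG : (G.map φ).det ≠ 0 := by
    have h1 : (G.map φ).det = φ G.det := by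
      rw [RingHom.map_det]
      rfl
    rw [h1, Ne, hφ0]
    exact hGd
  have hdetκ : (κ₁.map φ).det ≠ 0 := by
    intro h0
    have h1 := congrArg Matrix.det (hrk 0 G hG)
    rw [Matrix.det_smul, Matrix.det_mul, Matrix.det_mul, h0, mul_zero] at h1
    exact (mul_ne_zero (pow_ne_zero _ (pow_ne_zero _ hm0)) hdG) h1
  obtain ⟨q, hq⟩ := hq
  obtain ⟨m', hm'⟩ := hφs ((φ m)⁻¹)
  have hqc : IsCoprime (q.map φ) (f.map φ) := by
    obtain ⟨c, hc⟩ := hq
    have h0 : p.map φ = (q.map φ) ^ 2 + (f.map φ) * c := by linear_combination hc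
    have h1 : IsCoprime ((q.map φ) ^ 2) (f.map φ) := by
      rw [h0] at hpc
      exact IsCoprime.of_add_mul_left_left hpc
    exact (IsCoprime.pow_left_iff (by norm_num)).1 h1
  have hgr : ∀ k, gr k n (f.map φ) (p.map φ) =
      (mulM n (f.map φ) (q.map φ))ᵀ * gr k n (f.map φ) 1 * mulM n (f.map φ) (q.map φ) := by
    intro k
    have h1 : gr k n (f.map φ) (p.map φ) = gr k n (f.map φ) (1 * (q.map φ) ^ 2) := by
      apply gr_congr hfm
      rw [one_mul]
      exact hq
    rw [h1]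
    have h2 := gr_sq hfm k 1 (q.map φ)
    rw [hnm] at h2
    exact h2
  have hmap : ((mulM n f q) * (m' • κ₁)).map φ =
      (φ m)⁻¹ • (mulM n (f.map φ) (q.map φ) * κ₁.map φ) := by
    rw [Matrix.map_mul, mulM_map φ hf, ← Matrix.mul_smul, ← hm']
    congr 1
    ext i j
    simp only [Matrix.map_apply, Matrix.smul_apply, smul_eq_mul, map_mul]
  have hmain : ∀ k (T : Matrix (Fin n) (Fin n) R),
      κᵀ * gr k n (fk K f) (fk K p) * κ = T.map (algebraMap R K) → ∀ i j,
      (T - ((mulM n f q) * (m' • κ₁))ᵀ * gr k n f 1 * ((mulM n f q) * (m' • κ₁))) i j ∈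
        P.asIdeal := by
    intro k T hT i j
    rw [← hφ0, Matrix.sub_apply, map_sub, sub_eq_zero]
    have h1 : (((mulM n f q) * (m' • κ₁))ᵀ * gr k n f 1 * ((mulM n f q) * (m' • κ₁))).map φ =
        T.map φ := by
      rw [Matrix.map_mul, Matrix.map_mul, Matrix.transpose_map, hmap, gr_map _ hf,
        Polynomial.map_one, Matrix.transpose_smul, Matrix.smul_mul, Matrix.smul_mul,
        Matrix.mul_smul, smul_smul, Matrix.transpose_mul]
      have h2 : (κ₁.map φ)ᵀ * (mulM n (f.map φ) (q.map φ))ᵀ * gr k n (f.map φ) 1 *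
          (mulM n (f.map φ) (q.map φ) * κ₁.map φ) =
          (κ₁.map φ)ᵀ * gr k n (f.map φ) (p.map φ) * κ₁.map φ := by
        rw [hgr k]
        simp only [Matrix.mul_assoc]
      rw [h2, ← hrk k T hT, smul_smul]
      have h3 : (φ m)⁻¹ * (φ m)⁻¹ * (φ m) ^ 2 = 1 := by
        field_simp
      rw [h3, one_smul]
    exact (congrFun (congrFun h1 i) j).symm
  refine ⟨(mulM n f q) * (m' • κ₁), ?_, hmain 0 G hG, hmain 1 S hS⟩
  rw [← hφ0, RingHom.map_det]
  show ¬ (((mulM n f q) * (m' • κ₁)).map φ).det = 0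
  rw [hmap, Matrix.det_smul, Matrix.det_mul]
  have h4 : (mulM n (f.map φ) (q.map φ)).det ≠ 0 := by
    have h5 := mulM_det_ne hfm hqc
    rw [hnm] at h5
    exact h5.ne_zero
  exact mul_ne_zero (pow_ne_zero _ (inv_ne_zero hm0)) (mul_ne_zero h4 hdetκ)

end One

/-- **LOCK.** -/
theorem lock : LOCKStmt := by
  intro R _ _ K _ _ _ P n f p hf hn hc
  have : P.asIdeal.IsMaximal := P.isMaximal
  letI : Field (R ⧸ P.asIdeal) := Ideal.Quotient.field P.asIdeal
  have hφ0 : ∀ a : R, Ideal.Quotient.mk P.asIdeal a = 0 ↔ a ∈ P.asIdeal := fun a =>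
    Ideal.Quotient.eq_zero_iff_mem
  refine ⟨lock_det (Ideal.Quotient.mk P.asIdeal) hφ0 hf hn hc, ?_⟩
  intro κ G S hκ hGd hG hS hq
  exact lock_std (Ideal.Quotient.mk P.asIdeal) hφ0 Ideal.Quotient.mk_surjective hf hn hc hκ hGd
    hG hS hq

end Pool.T1
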