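import Pool.Agent.H30.T1.S4

/-!
# T1, GLUK: the elements regular at a prime; lattices with given localisations
-/

set_option autoImplicit false
set_option linter.overlappingInstances false
set_option linter.unusedSectionVars false

namespace Pool.T1

open Polynomial Matrix Pool.HYP Pool.AVS IsDedekindDomain

section Basic

variable {R : Type} [CommRing R] {K : Type} [Field K] [Algebra R K] {P : HeightOneSpectrum R}

theorem rp_alg (a : R) : algebraMap R K a ∈ RP K P :=
  ⟨1, fun h => P.isPrime.ne_top ((Ideal.eq_top_iff_one _).2 h), a, by rw [map_one, one_mul]⟩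

theorem rp_zero : (0 : K) ∈ RP K P := by
  have := rp_alg (K := K) (P := P) (0 : R)
  rwa [map_zero] at this

theorem rp_one : (1 : K) ∈ RP K P := by
  have := rp_alg (K := K) (P := P) (1 : R)
  rwa [map_one] at this

theorem rp_mul {x y : K} (hx : x ∈ RP K P) (hy : y ∈ RP K P) : x * y ∈ RP K P := by
  obtain ⟨m, hm, a, ha⟩ := hx
  obtain ⟨m', hm', a', ha'⟩ := hy
  refine ⟨m * m', fun h => ?_, a * a', ?_⟩
  · rcases P.isPrime.mem_or_mem h with h | h
    · exact hm h
    · exact hm' h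
  · rw [map_mul, map_mul, ← ha, ← ha']
    ring

theorem rp_add {x y : K} (hx : x ∈ RP K P) (hy : y ∈ RP K P) : x + y ∈ RP K P := by
  obtain ⟨m, hm, a, ha⟩ := hx
  obtain ⟨m', hm', a', ha'⟩ := hy
  refine ⟨m * m', fun h => ?_, m' * a + m * a', ?_⟩
  · rcases P.isPrime.mem_or_mem h with h | h
    · exact hm h
    · exact hm' h
  · rw [map_mul, map_add, map_mul, map_mul, ← ha, ← ha']
    ring

theorem rp_sum {ι : Type} (s : Finset ι) (x : ι → K) (h : ∀ i ∈ s, x i ∈ RP K P) :
    ∑ i ∈ s, x i ∈ RP K P := by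
  classical
  induction s using Finset.induction_on with
  | empty =>
    rw [Finset.sum_empty]
    exact rp_zero
  | insert a s ha ih =>
    rw [Finset.sum_insert ha]
    exact rp_add (h a (Finset.mem_insert_self a s))
      (ih fun i hi => h i (Finset.mem_insert_of_mem hi))

theorem rp_prod {ι : Type} (s : Finset ι) (x : ι → K) (h : ∀ i ∈ s, x i ∈ RP K P) :
    ∏ i ∈ s, x i ∈ RP K P := by
  classical
  induction s using Finset.induction_on with
  | empty =>
    rw [Finset.prod_empty]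
    exact rp_one
  | insert a s ha ih =>
    rw [Finset.prod_insert ha]
    exact rp_mul (h a (Finset.mem_insert_self a s))
      (ih fun i hi => h i (Finset.mem_insert_of_mem hi))

theorem rp_min_mul {n : ℕ} {A B : Matrix (Fin n) (Fin n) K}
    (hA : MIn (RP K P) A) (hB : MIn (RP K P) B) : MIn (RP K P) (A * B) := by
  intro i j
  rw [Matrix.mul_apply]
  exact rp_sum _ _ fun k _ => rp_mul (hA i k) (hB k j)

theorem rp_mulVec {n : ℕ} {A : Matrix (Fin n) (Fin n) K} {v : Fin n → K}
    (hA : MIn (RP K P) A) (hv : ∀ i, v i ∈ RP K P) (i : Fin n) : (A *ᵥ v) i ∈ RP K P := by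
  show ∑ k, A i k * v k ∈ RP K P
  exact rp_sum _ _ fun k _ => rp_mul (hA i k) (hv k)

theorem rp_map {n : ℕ} (A : Matrix (Fin n) (Fin n) R) :
    MIn (RP K P) (A.map (algebraMap R K)) := fun i j => rp_alg (A i j)

variable [IsDomain R] [IsFractionRing R K]

theorem alg_ne {a : R} (ha : a ≠ 0) : algebraMap R K a ≠ 0 := fun h =>
  ha (IsFractionRing.injective R K (h.trans (map_zero _).symm))

theorem rp_inv {m : R} (hm : m ∉ P.asIdeal) : (algebraMap R K m)⁻¹ ∈ RP K P := by
  refine ⟨m, hm, 1, ?_⟩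
  rw [map_one]
  refine mul_inv_cancel₀ (alg_ne fun h => hm ?_)
  rw [h]
  exact P.asIdeal.zero_mem

end Basic

section Dedekind

variable {R : Type} [CommRing R] [IsDedekindDomain R] {K : Type} [Field K]
  [Algebra R K] [IsFractionRing R K]

/-- An element of `K` regular at all primes is in `R`. -/
theorem rp_all {x : K} (h : ∀ P : HeightOneSpectrum R, x ∈ RP K P) :
    x ∈ Set.range (algebraMap R K) := by
  obtain ⟨I, hI⟩ : ∃ I : Ideal R, ∀ m : R, m ∈ I ↔ ∃ a : R, algebraMap R K m * x =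
      algebraMap R K a := by
    refine ⟨{ carrier := {m | ∃ a : R, algebraMap R K m * x = algebraMap R K a}
              add_mem' := ?_
              zero_mem' := ⟨0, by rw [map_zero, zero_mul]⟩
              smul_mem' := ?_ }, fun m => Iff.rfl⟩
    · rintro m m' ⟨a, ha⟩ ⟨a', ha'⟩
      exact ⟨a + a', by rw [map_add, map_add, add_mul, ha, ha']⟩
    · rintro c m ⟨a, ha⟩
      exact ⟨c * a, by rw [smul_eq_mul, map_mul, map_mul, mul_assoc, ha]⟩
  by_cases hT : I = ⊤
  · obtain ⟨a, ha⟩ := (hI 1).1 (by rw [hT]; trivial)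
    exact ⟨a, by rw [← ha, map_one, one_mul]⟩
  exfalso
  obtain ⟨M, hM, hIM⟩ := Ideal.exists_le_maximal I hT
  have hM0 : M ≠ ⊥ := by
    rintro rfl
    obtain ⟨a, b, hb, hab⟩ := IsFractionRing.div_surjective (A := R) x
    have h1 : b ∈ I := (hI b).2 ⟨a, by
      rw [← hab, mul_div_cancel₀]
      exact alg_ne (nonZeroDivisors.ne_zero hb)⟩
    exact nonZeroDivisors.ne_zero hb (by simpa using hIM h1)
  obtain ⟨m, hm, a, ha⟩ := h ⟨M, hM.isPrime, hM0⟩
  exact hm (hIM ((hI m).2 ⟨a, ha⟩))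

/-- Common denominators. -/
theorem den_all {ι : Type} [Finite ι] (x : ι → K) :
    ∃ d : R, d ≠ 0 ∧ ∀ i, ∃ a : R, algebraMap R K d * x i = algebraMap R K a := by
  obtain ⟨b, hb⟩ := IsLocalization.exist_integer_multiples_of_finite (nonZeroDivisors R) x
  refine ⟨b, nonZeroDivisors.ne_zero b.2, fun i => ?_⟩
  obtain ⟨a, ha⟩ := hb i
  exact ⟨a, by rw [ha, Algebra.smul_def]⟩

/-- An element outside `P` which is, at all other primes, a multiple of `d`. -/
theorem avoid (P : HeightOneSpectrum R) {d : R} (hd : d ≠ 0) :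
    ∃ m : R, m ∉ P.asIdeal ∧ ∀ Q : HeightOneSpectrum R, Q ≠ P →
      ∃ t r : R, t ∉ Q.asIdeal ∧ m * t = d * r := by
  have hI : Ideal.span {d} ≠ (0 : Ideal R) := by
    rw [Ideal.zero_eq_bot, Ne, Ideal.span_singleton_eq_bot]
    exact hd
  obtain ⟨k, J, hJ, hIJ⟩ := WfDvdMonoid.max_power_factor hI P.irreducible
  have h1 : ¬ J ≤ P.asIdeal := fun h => hJ (Ideal.dvd_iff_le.2 h)
  obtain ⟨m, hm, hmP⟩ := SetLike.not_le_iff_exists.1 h1
  refine ⟨m, hmP, fun Q hQ => ?_⟩
  have h2 : ¬ P.asIdeal ^ k ≤ Q.asIdeal := by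
    intro h
    have h3 : P.asIdeal ≤ Q.asIdeal := Q.isPrime.le_of_pow_le h
    have h4 := P.isMaximal.eq_of_le Q.isPrime.ne_top h3
    exact hQ (HeightOneSpectrum.ext h4.symm)
  obtain ⟨t, ht, htQ⟩ := SetLike.not_le_iff_exists.1 h2
  have h5 : t * m ∈ Ideal.span {d} := by
    rw [hIJ]
    exact Ideal.mul_mem_mul ht hm
  obtain ⟨r, hr⟩ := Ideal.mem_span_singleton.1 h5
  exact ⟨t, r, htQ, by rw [mul_comm, hr]⟩

end Dedekind

/-- **GLUK.** -/
theorem gluk : GLUKStmt := by
  classical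
  intro R _ _ K _ _ _ n S b hb hbS
  have hsm : ∀ (A : Matrix (Fin n) (Fin n) K) (m : R) (x : Fin n → K) (i : Fin n),
      (A *ᵥ (m • x)) i = algebraMap R K m * (A *ᵥ x) i := by
    intro A m x i
    rw [Matrix.mulVec_smul, Pi.smul_apply, Algebra.smul_def]
  obtain ⟨Λ, hΛ⟩ : ∃ Λ : Submodule R (Fin n → K), ∀ y, y ∈ Λ ↔
      ∀ P i, ((b P)⁻¹ *ᵥ y) i ∈ RP K P := by
    refine ⟨{ carrier := {y | ∀ P i, ((b P)⁻¹ *ᵥ y) i ∈ RP K P}
              add_mem' := ?_
              zero_mem' := ?_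
              smul_mem' := ?_ }, fun y => Iff.rfl⟩
    · intro x y hx hy P i
      rw [Matrix.mulVec_add]
      exact rp_add (hx P i) (hy P i)
    · intro P i
      rw [Matrix.mulVec_zero]
      exact rp_zero
    · intro c x hx P i
      rw [hsm]
      exact rp_mul (rp_alg c) (hx P i)
  refine ⟨Λ, hΛ, ?_, ?_⟩
  · obtain ⟨d, hd, hda⟩ := den_all (R := R) (K := K)
      (fun z : S × Fin n × Fin n => (b z.1)⁻¹ z.2.1 z.2.2)
    refine ⟨Matrix.diagonal fun _ => algebraMap R K d, ?_, fun j => ?_⟩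
    · rw [Matrix.det_diagonal]
      exact Finset.prod_ne_zero_iff.2 fun _ _ => alg_ne hd
    · rw [hΛ]
      intro P i
      have h1 : (fun i => (Matrix.diagonal fun _ : Fin n => algebraMap R K d) i j) =
          Pi.single j (algebraMap R K d) := by
        funext i
        by_cases hij : i = j
        · rw [hij, Matrix.diagonal_apply_eq, Pi.single_eq_same]
        · rw [Matrix.diagonal_apply_ne _ hij, Pi.single_eq_of_ne hij]
      rw [h1, Matrix.mulVec_single]
      show ((b P)⁻¹ i j) * algebraMap R K d ∈ RP K P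
      by_cases hP : P ∈ S
      · obtain ⟨a, ha⟩ := hda (⟨P, hP⟩, i, j)
        have h2 : (b P)⁻¹ i j * algebraMap R K d = algebraMap R K a := by
          rw [mul_comm]
          exact ha
        rw [h2]
        exact rp_alg a
      · rw [hbS P hP, inv_one]
        refine rp_mul ?_ (rp_alg d)
        by_cases hij : i = j
        · rw [hij, Matrix.one_apply_eq]
          exact rp_one
        · rw [Matrix.one_apply_ne hij]
          exact rp_zero
  · intro P x hx
    obtain ⟨d, hd, hda⟩ := den_all (R := R) (K := K)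
      (fun z : Option S × Fin n => match z.1 with
        | none => x z.2
        | some Q => ((b Q)⁻¹ *ᵥ x) z.2)
    obtain ⟨m, hm, hmQ⟩ := avoid P hd
    refine ⟨m, hm, ?_⟩
    rw [hΛ]
    intro Q i
    rw [hsm]
    by_cases hQ : Q = P
    · rw [hQ]
      exact rp_mul (rp_alg m) (hx i)
    · obtain ⟨t, r, ht, htr⟩ := hmQ Q hQ
      obtain ⟨a, ha⟩ : ∃ a : R, algebraMap R K d * ((b Q)⁻¹ *ᵥ x) i = algebraMap R K a := by
        by_cases hQS : Q ∈ S
        · exact hda (some ⟨Q, hQS⟩, i)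
        · rw [hbS Q hQS, inv_one, Matrix.one_mulVec]
          exact hda (none, i)
      refine ⟨t, ht, r * a, ?_⟩
      rw [map_mul, ← ha, ← mul_assoc, ← map_mul, mul_comm t m, htr, map_mul]
      ring

end Pool.T1
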