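import Pool.Agent.H29.T1.S7
import Pool.Agent.H41.T1.PM

/-!
# T1: statements of the modules, part 4 (lattices; the pair of matrices of a bad class)
-/

set_option autoImplicit false

namespace Pool.T1

open Polynomial Matrix Pool.HYP Pool.TOW Pool.AVS IsDedekindDomain

/-- The elements of `K` regular at `P`. -/
def RP {R : Type} [CommRing R] (K : Type) [Field K] [Algebra R K] (P : HeightOneSpectrum R) :
    Set K :=
  {x | ∃ m : R, m ∉ P.asIdeal ∧ ∃ a : R, algebraMap R K m * x = algebraMap R K a}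

/-! ### Lattices over a Dedekind domain -/

/-- GLUK: the lattice with given localisations, almost all of them trivial. -/
def GLUKStmt : Prop :=
  ∀ (R : Type) [CommRing R] [IsDedekindDomain R] (K : Type) [Field K] [Algebra R K]
    [IsFractionRing R K] (n : ℕ) (S : Finset (HeightOneSpectrum R))
    (b : HeightOneSpectrum R → Matrix (Fin n) (Fin n) K), (∀ P, (b P).det ≠ 0) →
    (∀ P, P ∉ S → b P = 1) →
    ∃ Λ : Submodule R (Fin n → K),
      (∀ y, y ∈ Λ ↔ ∀ P i, ((b P)⁻¹ *ᵥ y) i ∈ RP K P) ∧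
      (∃ E : Matrix (Fin n) (Fin n) K, E.det ≠ 0 ∧ ∀ j, (fun i => E i j) ∈ Λ) ∧
      ∀ (P : HeightOneSpectrum R) (x : Fin n → K), (∀ i, ((b P)⁻¹ *ᵥ x) i ∈ RP K P) →
        ∃ m : R, m ∉ P.asIdeal ∧ m • x ∈ Λ

/-- LOCK: one prime. -/
def LOCKStmt : Prop :=
  ∀ (R : Type) [CommRing R] [IsDedekindDomain R] (K : Type) [Field K] [Algebra R K]
    [IsFractionRing R K] (P : HeightOneSpectrum R) (n : ℕ) (f p : R[X]), f.Monic →
    f.natDegree = n → IsCoprime (md P.asIdeal p) (md P.asIdeal f) →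
    (gr 0 n f p).det ∉ P.asIdeal ∧
    ∀ (κ : Matrix (Fin n) (Fin n) K) (G S : Matrix (Fin n) (Fin n) R), MIn (RP K P) κ →
      G.det ∉ P.asIdeal →
      κᵀ * gr 0 n (fk K f) (fk K p) * κ = G.map (algebraMap R K) →
      κᵀ * gr 1 n (fk K f) (fk K p) * κ = S.map (algebraMap R K) →
      (∃ q : R[X], md P.asIdeal f ∣ md P.asIdeal p - md P.asIdeal q ^ 2) →
      StdP n P.asIdeal f G S

/-- LATTK: the lattice of an everywhere unramified class. -/
def LATTKStmt : Prop :=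
  ∀ (R : Type) [CommRing R] [IsDedekindDomain R] (K : Type) [Field K] [Algebra R K]
    [IsFractionRing R K] (n : ℕ) (f : R[X]) (α : K[X]) (T : Finset (HeightOneSpectrum R)),
    f.Monic → f.natDegree = n → IsCoprime α (fk K f) →
    (∀ P : HeightOneSpectrum R, US P.asIdeal f α) → (∀ P ∈ T, TR P.asIdeal f α) →
    ∃ Λ : Submodule R (Fin n → K),
      (∃ E : Matrix (Fin n) (Fin n) K, E.det ≠ 0 ∧ ∀ j, (fun i => E i j) ∈ Λ) ∧
      (∀ y : Fin n → K, y ∈ Λ ↔
        ∀ x ∈ Λ, x ⬝ᵥ (gr 0 n (fk K f) α *ᵥ y) ∈ Set.range (algebraMap R K)) ∧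
      (∀ x ∈ Λ, ∀ y ∈ Λ, x ⬝ᵥ (gr 1 n (fk K f) α *ᵥ y) ∈ Set.range (algebraMap R K)) ∧
      ∀ P ∈ T, ∀ (E : Matrix (Fin n) (Fin n) K) (G S : Matrix (Fin n) (Fin n) R),
        (∀ j, (fun i => E i j) ∈ Λ) → G.det ∉ P.asIdeal →
        Eᵀ * gr 0 n (fk K f) α * E = G.map (algebraMap R K) →
        Eᵀ * gr 1 n (fk K f) α * E = S.map (algebraMap R K) → StdP n P.asIdeal f G S

/-! ### The place at infinity -/

/-- INFK: the lattice at infinity. -/
def INFKStmt : Prop :=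
  ∀ (R : Type) [CommRing R] [IsDomain R] (K : Type) [Field K] [Algebra R K]
    (O : ValuationSubring K) (π : K), GR R O π → ∀ (g : ℕ) (D : Dat R O) (h : ℕ),
    D.top.Monic → D.top.natDegree = 2 * g + 1 → Irreducible D.top → ∀ f ∈ Fam π g D h,
    ∀ α : K[X], IsCoprime α (fk K f) → NSq (fk K f) α →
    ∃ gi : Matrix (Fin (2 * g + 1)) (Fin (2 * g + 1)) K, gi.det ≠ 0 ∧
      GIn (O : Set K) (giᵀ * gr 0 (2 * g + 1) (fk K f) α * gi) ∧
      MIn (O : Set K) (π ^ h • (giᵀ * gr 1 (2 * g + 1) (fk K f) α * gi))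

/-- NDK: the primes dividing an element of bounded size. -/
def NDKStmt : Prop :=
  ∀ (R : Type) [CommRing R] [IsDedekindDomain R] (K : Type) [Field K] [Algebra R K]
    [IsFractionRing R K] (O : ValuationSubring K) (π : K), GR R O π →
    ∃ c : ℕ, ∀ (m : ℕ) (a : R) (P : HeightOneSpectrum R), a ≠ 0 → a ∈ Lm R O π m →
      a ∈ P.asIdeal → Nat.card (R ⧸ P.asIdeal) ≤ c * qq O ^ m

/-- KEYK: the pair of matrices of a bad class. -/
def KEYKStmt : Prop :=
  ∀ (R : Type) [CommRing R] [IsDedekindDomain R] (K : Type) [Field K] [Algebra R K]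
    [IsFractionRing R K] (O : ValuationSubring K) (π : K), GR R O π → Mink R O π →
    ∀ g : ℕ, 1 ≤ g → ∃ C : ℤ, 0 ≤ C ∧ KeyC R O π g C

end Pool.T1
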