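import Pool.Agent.H94.T1.S6

/-!
# T1, AVGK: the average over the cosets
-/

set_option autoImplicit false
set_option linter.overlappingInstances false
set_option linter.unusedSectionVars false

namespace Pool.T1

open Polynomial Matrix Pool.HYP Pool.TOW Pool.AVS IsDedekindDomain

namespace Avg30

variable {R : Type} [CommRing R] {K : Type} [Field K] [Algebra R K] {O : ValuationSubring K}
  {π : K}

theorem lm_mul (hπ : π ≠ 0) {a b : R} {i j : ℤ} (ha : a ∈ Lm R O π i) (hb : b ∈ Lm R O π j) :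
    a * b ∈ Lm R O π (i + j) := by
  show algebraMap R K (a * b) * π ^ (i + j) ∈ O
  rw [map_mul, zpow_add₀ hπ]
  have h := O.mul_mem _ _ ha hb
  have e : algebraMap R K a * algebraMap R K b * (π ^ i * π ^ j) =
      algebraMap R K a * π ^ i * (algebraMap R K b * π ^ j) := by ring
  rw [e]
  exact h

theorem lm_pow (hπ : π ≠ 0) {a : R} {i : ℤ} (ha : a ∈ Lm R O π i) (k : ℕ) :
    a ^ k ∈ Lm R O π (k * i) := by
  induction k with
  | zero =>
    show algebraMap R K (a ^ 0) * π ^ (((0 : ℕ) : ℤ) * i) ∈ O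
    simp
  | succ k ih =>
    have h := lm_mul hπ ih ha
    rw [pow_succ]
    have e : ((k + 1 : ℕ) : ℤ) * i = k * i + i := by push_cast; ring
    rw [e]
    exact h

theorem lm_mono (hπ : π ≠ 0) (hO : π ∈ O) {a : R} {i j : ℤ} (hij : i ≤ j)
    (ha : a ∈ Lm R O π i) : a ∈ Lm R O π j := by
  obtain ⟨k, hk⟩ := Int.le.dest hij
  show algebraMap R K a * π ^ j ∈ O
  have e : algebraMap R K a * π ^ j = algebraMap R K a * π ^ i * π ^ k := by
    rw [← hk, zpow_add₀ hπ, zpow_natCast]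
    ring
  rw [e]
  exact O.mul_mem _ _ ha (pow_mem hO k)

theorem lm_add {a b : R} {i : ℤ} (ha : a ∈ Lm R O π i) (hb : b ∈ Lm R O π i) :
    a + b ∈ Lm R O π i := by
  show algebraMap R K (a + b) * π ^ i ∈ O
  rw [map_add, add_mul]
  exact O.add_mem _ _ ha hb

theorem lm_zero {i : ℤ} : (0 : R) ∈ Lm R O π i := by
  show algebraMap R K 0 * π ^ i ∈ O
  rw [map_zero, zero_mul]
  exact O.zero_mem

end Avg30

open Avg30

/-- **AVGK.** -/
theorem avgk (hPRTK : PRTKStmt) : AVGKStmt := by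
  classical
  intro R _ _ K _ _ _ O π hGR hU g D h p M t s m l κ hp hfin hM ht hsl hT hT' hX
  have hπ := hGR.pi_ne
  have hO := hGR.pi_mem
  -- the perturbations
  have hw : ∀ u v : R, u ∈ Lm R O π (l : ℤ) → v ∈ Lm R O π (l : ℤ) →
      wK p M t u v ∈ Lm R O π ((((2 * g + 1) * h : ℕ) : ℤ) - 1) := by
    intro u v hu hv
    have h1 : u ^ p ∈ Lm R O π ((p : ℤ) * l + s) :=
      lm_mono hπ hO (by omega) (lm_pow hπ hu p)
    have h2 : t * v ^ p ∈ Lm R O π ((p : ℤ) * l + s) := by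
      have h3 := lm_mul hπ ht (lm_pow hπ hv p)
      have e : (p : ℤ) * l + s = s + p * l := by ring
      rw [e]
      exact h3
    have h3 := lm_mul hπ (lm_pow hπ hM p) (lm_add h1 h2)
    refine lm_mono hπ hO ?_ h3
    have h4 : ((p * (s + l) + s + 1 : ℕ) : ℤ) ≤ (((2 * g + 1) * h : ℕ) : ℤ) := by
      exact_mod_cast hsl
    have h5 : ((p * (s + l) + s + 1 : ℕ) : ℤ) = p * s + (p * l + s) + 1 := by
      push_cast
      ring
    rw [h5] at h4
    linarith
  have hwP : ∀ (P : HeightOneSpectrum R) (u v : R), M ∈ P.asIdeal →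
      wK p M t u v ∈ P.asIdeal := by
    intro P u v hMP
    unfold wK
    exact P.asIdeal.mul_mem_right _ (P.asIdeal.pow_mem_of_mem hMP p (by omega))
  have hst : ∀ u v : R, u ∈ Lm R O π (l : ℤ) → v ∈ Lm R O π (l : ℤ) → ∀ f : R[X],
      f + C (wK p M t u v) ∈ Fam π g D h ↔ f ∈ Fam π g D h := by
    intro u v hu hv
    exact hPRTK R K O π hGR g D h _ (hw u v hu hv) (fun P hP => hwP P u v (hT P hP))
      (fun P hP => hwP P u v (hT' P hP))
  -- the finite sets
  have hLf := (hU (l : ℤ)).1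
  obtain ⟨L, hL⟩ : ∃ L : Finset R, L = hLf.toFinset := ⟨_, rfl⟩
  have hLm : ∀ a, a ∈ L ↔ a ∈ Lm R O π (l : ℤ) := fun a => by rw [hL, Set.Finite.mem_toFinset]
  have hLc : (Lm R O π (l : ℤ)).ncard = L.card := by
    rw [hL, Set.ncard_eq_toFinset_card _ hLf]
  obtain ⟨F, hF⟩ : ∃ F : Finset R[X], F = hfin.toFinset := ⟨_, rfl⟩
  have hFm : ∀ f, f ∈ F ↔ f ∈ Fam π g D h := fun f => by rw [hF, Set.Finite.mem_toFinset]
  have hFc : (Fam π g D h).ncard = F.card := by
    rw [hF, Set.ncard_eq_toFinset_card _ hfin]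
  obtain ⟨Q, hQ⟩ : ∃ Q : R[X] → Prop, ∀ f, Q f ↔
      ∃ P : HeightOneSpectrum R, qq O ^ m < Nm P ∧ Sing P.asIdeal f := ⟨_, fun f => Iff.rfl⟩
  have hSc : (SingL π g D h (qq O ^ m)).ncard = (F.filter Q).card := by
    rw [← Set.ncard_coe_finset]
    congr 1
    ext f
    rw [Finset.coe_filter, Set.mem_ofPred_eq, hFm, hQ]
    exact Iff.rfl
  have hXc : ∀ f, (XBK O π p M t l (qq O ^ m) f).ncard =
      ((L ×ˢ L).filter (fun x => Q (f + C (wK p M t x.1 x.2)))).card := by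
    intro f
    rw [← Set.ncard_coe_finset]
    congr 1
    ext x
    rw [Finset.coe_filter, Set.mem_ofPred_eq, Finset.mem_product, hLm, hLm, hQ, and_assoc]
    exact Iff.rfl
  -- double counting
  have hdc : ∑ f ∈ F, ((L ×ˢ L).filter (fun x => Q (f + C (wK p M t x.1 x.2)))).card =
      ∑ x ∈ L ×ˢ L, (F.filter (fun f => Q (f + C (wK p M t x.1 x.2)))).card :=
    Finset.sum_card_bipartiteAbove_eq_sum_card_bipartiteBelow
      (fun (f : R[X]) (x : R × R) => Q (f + C (wK p M t x.1 x.2)))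
  have hbij : ∀ x ∈ L ×ˢ L, (F.filter (fun f => Q (f + C (wK p M t x.1 x.2)))).card =
      (F.filter Q).card := by
    intro x hx
    rw [Finset.mem_product, hLm, hLm] at hx
    refine Finset.card_bij (fun f _ => f + C (wK p M t x.1 x.2)) ?_ ?_ ?_
    · intro f hf
      rw [Finset.mem_filter, hFm] at hf ⊢
      exact ⟨(hst x.1 x.2 hx.1 hx.2 f).2 hf.1, hf.2⟩
    · intro f _ f' _ hff
      exact add_right_cancel hff
    · intro f hf
      rw [Finset.mem_filter, hFm] at hf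
      refine ⟨f - C (wK p M t x.1 x.2), ?_, by rw [sub_add_cancel]⟩
      rw [Finset.mem_filter, hFm, sub_add_cancel]
      refine ⟨(hst x.1 x.2 hx.1 hx.2 _).1 ?_, hf.2⟩
      rw [sub_add_cancel]
      exact hf.1
  rw [Finset.sum_congr rfl hbij, Finset.sum_const, smul_eq_mul, Finset.card_product] at hdc
  have hsum : ∑ f ∈ F, ((L ×ˢ L).filter (fun x => Q (f + C (wK p M t x.1 x.2)))).card *
      (Lm R O π (m : ℤ)).ncard ≤ ∑ f ∈ F, κ * (h + 1) * L.card ^ 2 := by
    refine Finset.sum_le_sum fun f hf => ?_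
    have h1 := hX f ((hFm f).1 hf)
    rw [hXc, hLc] at h1
    exact h1
  rw [← Finset.sum_mul, hdc, Finset.sum_const, smul_eq_mul] at hsum
  have hL0 : 0 < L.card := Finset.card_pos.2 ⟨0, (hLm 0).2 lm_zero⟩
  rw [hSc, hFc]
  have h1 : L.card ^ 2 * ((F.filter Q).card * (Lm R O π (m : ℤ)).ncard) ≤
      L.card ^ 2 * (κ * (h + 1) * F.card) := by
    calc L.card ^ 2 * ((F.filter Q).card * (Lm R O π (m : ℤ)).ncard) =
        L.card * L.card * (F.filter Q).card * (Lm R O π (m : ℤ)).ncard := by ring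
      _ ≤ F.card * (κ * (h + 1) * L.card ^ 2) := hsum
      _ = L.card ^ 2 * (κ * (h + 1) * F.card) := by ring
  exact Nat.le_of_mul_le_mul_left h1 (pow_pos hL0 2)

end Pool.T1
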