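import Pool.Agent.H30.T1.LOCK
import Pool.Agent.H6.HYP.SQI

/-!
# T1, LATTK: the lattice of an everywhere unramified class
-/

set_option autoImplicit false
set_option linter.overlappingInstances false
set_option linter.unusedSectionVars false

namespace Pool.T1

open Polynomial Matrix Pool.HYP Pool.TOW Pool.AVS IsDedekindDomain

namespace Latk

variable {R : Type} [CommRing R] [IsDedekindDomain R] {K : Type} [Field K] [Algebra R K]
  [IsFractionRing R K]

theorem fk_inj {p q : R[X]} (h : fk K p = fk K q) : p = q :=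
  Polynomial.map_injective _ (IsFractionRing.injective R K) h

theorem clear (p : K[X]) : ∃ (m : R) (q : R[X]), m ≠ 0 ∧ C (algebraMap R K m) * p = fk K q := by
  obtain ⟨b, hb0, hb⟩ := IsLocalization.integerNormalization_spec (nonZeroDivisors R) p
  refine ⟨b, IsLocalization.integerNormalization (nonZeroDivisors R) p,
    nonZeroDivisors.ne_zero hb0, ?_⟩
  show _ = Polynomial.map _ _
  rw [hb, ← smul_eq_C_mul]
  exact (algebraMap_smul K b p)

theorem clear2 {p q : R[X]} (h : IsCoprime (fk K p) (fk K q)) :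
    ∃ (a b : R[X]) (δ : R), δ ≠ 0 ∧ a * p + b * q = C δ := by
  obtain ⟨a, b, hab⟩ := h
  obtain ⟨m, a', hm, ha⟩ := clear (R := R) a
  obtain ⟨m', b', hm', hb⟩ := clear (R := R) b
  refine ⟨C m' * a', C m * b', m * m', mul_ne_zero hm hm', ?_⟩
  apply fk_inj (K := K)
  simp only [fk, Polynomial.map_add, Polynomial.map_mul, Polynomial.map_C, map_mul] at ha hb hab ⊢
  rw [← ha, ← hb]
  linear_combination (C (algebraMap R K m) * C (algebraMap R K m')) * hab

theorem md_zer {P : Ideal R} {p : R[X]} (h : Zer P p) : md P p = 0 := by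
  ext i
  rw [coeff_map, coeff_zero]
  exact Ideal.Quotient.eq_zero_iff_mem.2 (h i)

/-- The local data at one prime. -/
theorem latt_loc {P : HeightOneSpectrum R} {n : ℕ} {f : R[X]} {h : K[X]} (hf : f.Monic)
    (hn : f.natDegree = n) (hU : US P.asIdeal f h) :
    ∃ (a : Matrix (Fin n) (Fin n) K) (p : R[X]), a.det ≠ 0 ∧
      gr 0 n (fk K f) (fk K p) = aᵀ * gr 0 n (fk K f) h * a ∧
      gr 1 n (fk K f) (fk K p) = aᵀ * gr 1 n (fk K f) h * a ∧
      IsCoprime (md P.asIdeal p) (md P.asIdeal f) ∧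
      (TR P.asIdeal f h → ∃ q : R[X], md P.asIdeal f ∣ md P.asIdeal p - md P.asIdeal q ^ 2) := by
  have hfK : (fk K f).Monic := hf.map _
  have hnK : (fk K f).natDegree = n := by rw [hf.natDegree_map, hn]
  have key : ∃ (s : K[X]) (p : R[X]), IsCoprime s (fk K f) ∧
      fk K f ∣ h * s ^ 2 - fk K p ∧ IsCoprime (md P.asIdeal p) (md P.asIdeal f) ∧
      (TR P.asIdeal f h → ∃ q : R[X], md P.asIdeal f ∣ md P.asIdeal p - md P.asIdeal q ^ 2) := by
    by_cases hT : TR P.asIdeal f h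
    · obtain ⟨s, p, hs, hp, hz⟩ := hT
      have h1 : md P.asIdeal (1 + p) = 1 := by
        rw [md, Polynomial.map_add, Polynomial.map_one]
        have := md_zer hz
        rw [md] at this
        rw [this, add_zero]
      refine ⟨s, 1 + p, hs, hp, ?_, fun _ => ⟨1, ?_⟩⟩
      · rw [h1]
        exact isCoprime_one_left
      · have h2 : md P.asIdeal (1 : R[X]) = 1 := Polynomial.map_one _
        rw [h1, h2, one_pow, sub_self]
        exact dvd_zero _
    · obtain ⟨s, p, hs, hp, hu⟩ := hU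
      exact ⟨s, p, hs, hp, hu, fun h => absurd h hT⟩
  obtain ⟨s, p, hs, hp, hu, hT⟩ := key
  obtain ⟨a, ha, h0, h1⟩ := sqi K n (fk K f) h (fk K p) s hfK hnK hs (by
    obtain ⟨e, he⟩ := hp
    exact ⟨-e, by linear_combination -he⟩)
  exact ⟨a, p, ha, h0, h1, hu, hT⟩

end Latk

open Latk

/-- **LATTK.** -/
theorem lattk : LATTKStmt := by
  classical
  intro R _ _ K _ _ _ n f α T hf hn hc hUS hTR
  have hfK : (fk K f).Monic := hf.map _
  have hnK : (fk K f).natDegree = n := by rw [hf.natDegree_map, hn]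
  -- outside the divisors of `d δ` the polynomial `α` is a unit
  obtain ⟨d, h₁, hd, hh₁⟩ := clear (R := R) α
  have hd0 : algebraMap R K d ≠ 0 := alg_ne hd
  have hc1 : IsCoprime (fk K h₁) (fk K f) := by
    rw [← hh₁]
    have : IsUnit (C (algebraMap R K d) : K[X]) := isUnit_C.2 hd0.isUnit
    exact (isCoprime_mul_unit_left_left this α (fk K f)).2 hc
  obtain ⟨a₁, b₁, δ, hδ, hab⟩ := clear2 hc1
  have hI : Ideal.span {d * δ} ≠ (0 : Ideal R) := by
    rw [Ideal.zero_eq_bot, Ne, Ideal.span_singleton_eq_bot]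
    exact mul_ne_zero hd hδ
  obtain ⟨S, hS⟩ : ∃ S : Finset (HeightOneSpectrum R), S = T ∪ (Ideal.finite_factors hI).toFinset :=
    ⟨_, rfl⟩
  have hSD : ∀ P : HeightOneSpectrum R, P ∉ S → d * δ ∉ P.asIdeal := by
    intro P hPS hPD
    apply hPS
    rw [hS, Finset.mem_union, Set.Finite.mem_toFinset]
    right
    show P.asIdeal ∣ Ideal.span {d * δ}
    rw [Ideal.dvd_span_singleton]
    exact hPD
  have hloc : ∀ P : HeightOneSpectrum R, ∃ (a : Matrix (Fin n) (Fin n) K) (p : R[X]), a.det ≠ 0 ∧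
      gr 0 n (fk K f) (fk K p) = aᵀ * gr 0 n (fk K f) α * a ∧
      gr 1 n (fk K f) (fk K p) = aᵀ * gr 1 n (fk K f) α * a ∧
      IsCoprime (md P.asIdeal p) (md P.asIdeal f) ∧
      (TR P.asIdeal f α → ∃ q : R[X], md P.asIdeal f ∣ md P.asIdeal p - md P.asIdeal q ^ 2) :=
    fun P => latt_loc hf hn (hUS P)
  choose aP pP haP h0P h1P huP hTP using hloc
  obtain ⟨b, hb⟩ : ∃ b : HeightOneSpectrum R → Matrix (Fin n) (Fin n) K,
      ∀ P, b P = if P ∈ S then aP P else 1 := ⟨fun P => if P ∈ S then aP P else 1, fun _ => rfl⟩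
  have hbd : ∀ P, (b P).det ≠ 0 := by
    intro P
    rw [hb]
    split_ifs
    · exact haP P
    · rw [Matrix.det_one]
      exact one_ne_zero
  obtain ⟨Λ, hΛ, hE, hloc⟩ := gluk R K n S b hbd (fun P hP => by rw [hb, if_neg hP])
  -- all primes
  have hall : ∀ P : HeightOneSpectrum R, ∃ (c : K) (p : R[X]), c ≠ 0 ∧ c ∈ RP K P ∧
      c⁻¹ ∈ RP K P ∧ IsCoprime (md P.asIdeal p) (md P.asIdeal f) ∧
      (b P)ᵀ * gr 0 n (fk K f) α * b P = c⁻¹ ^ 2 • gr 0 n (fk K f) (fk K p) ∧
      (b P)ᵀ * gr 1 n (fk K f) α * b P = c⁻¹ ^ 2 • gr 1 n (fk K f) (fk K p) ∧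
      (P ∈ T → ∃ q : R[X], md P.asIdeal f ∣ md P.asIdeal p - md P.asIdeal q ^ 2) := by
    intro P
    by_cases hPS : P ∈ S
    · refine ⟨1, pP P, one_ne_zero, rp_one, ?_, huP P, ?_, ?_, fun h => hTP P (hTR P h)⟩
      · rw [inv_one]
        exact rp_one
      · rw [hb, if_pos hPS, inv_one, one_pow, one_smul, h0P]
      · rw [hb, if_pos hPS, inv_one, one_pow, one_smul, h1P]
    · have hPD := hSD P hPS
      have hPd : d ∉ P.asIdeal := fun h => hPD (P.asIdeal.mul_mem_right δ h)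
      have e1 : fk K (C d * h₁) = C (algebraMap R K d ^ 2) * α := by
        rw [fk, Polynomial.map_mul, Polynomial.map_C]
        have h2 : Polynomial.map (algebraMap R K) h₁ = fk K h₁ := rfl
        rw [h2, ← hh₁, pow_two, C_mul]
        ring
      refine ⟨algebraMap R K d, C d * h₁, hd0, rp_alg d, rp_inv hPd, ?_, ?_, ?_, ?_⟩
      · obtain ⟨v, i, hi, hv⟩ := P.isMaximal.exists_inv hPD
        refine ⟨md P.asIdeal (C v * a₁), md P.asIdeal (C v * C d * b₁), ?_⟩
        have e2 : C v * a₁ * (C d * h₁) + C v * C d * b₁ * f = 1 - C i := by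
          have e3 : C v * (C d * C δ) + C i = (1 : R[X]) := by
            rw [← C_mul, ← C_mul, ← C_add, hv, C_1]
          linear_combination (C v * C d) * hab + e3
        have e4 := congrArg (Polynomial.mapRingHom (Ideal.Quotient.mk P.asIdeal)) e2
        rw [map_add, map_mul _ (C v * a₁), map_mul _ (C v * C d * b₁), map_sub, map_one] at e4
        refine e4.trans ?_
        rw [Polynomial.coe_mapRingHom, Polynomial.map_C,
          Ideal.Quotient.eq_zero_iff_mem.2 hi, C_0, sub_zero]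
      · rw [hb, if_neg hPS, e1, gr_C_mul, smul_smul, Matrix.transpose_one, Matrix.one_mul,
          Matrix.mul_one]
        have e2 : (algebraMap R K d)⁻¹ ^ 2 * algebraMap R K d ^ 2 = 1 := by field_simp
        rw [e2, one_smul]
      · rw [hb, if_neg hPS, e1, gr_C_mul, smul_smul, Matrix.transpose_one, Matrix.one_mul,
          Matrix.mul_one]
        have e2 : (algebraMap R K d)⁻¹ ^ 2 * algebraMap R K d ^ 2 = 1 := by field_simp
        rw [e2, one_smul]
      · intro hT
        exact absurd (by rw [hS]; exact Finset.mem_union_left _ hT) hPS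
  -- the form in local coordinates
  have hbb : ∀ (P : HeightOneSpectrum R) (x : Fin n → K), b P *ᵥ ((b P)⁻¹ *ᵥ x) = x := by
    intro P x
    rw [Matrix.mulVec_mulVec, Matrix.mul_nonsing_inv _ (isUnit_iff_ne_zero.2 (hbd P)),
      Matrix.one_mulVec]
  have hform : ∀ (P : HeightOneSpectrum R) (M : Matrix (Fin n) (Fin n) K) (x y : Fin n → K),
      x ⬝ᵥ (M *ᵥ y) = ((b P)⁻¹ *ᵥ x) ⬝ᵥ (((b P)ᵀ * M * b P) *ᵥ ((b P)⁻¹ *ᵥ y)) := by
    intro P M x y
    rw [← Matrix.mulVec_mulVec, hbb, ← Matrix.mulVec_mulVec, Matrix.dotProduct_mulVec _ (b P)ᵀ,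
      Matrix.vecMul_transpose, hbb]
  have hint : ∀ (P : HeightOneSpectrum R) (c : K) (M : Matrix (Fin n) (Fin n) K)
      (u v : Fin n → K), c⁻¹ ∈ RP K P → MIn (RP K P) M → (∀ i, u i ∈ RP K P) →
      (∀ i, v i ∈ RP K P) → u ⬝ᵥ ((c⁻¹ ^ 2 • M) *ᵥ v) ∈ RP K P := by
    intro P c M u v hcR hM hu hv
    rw [Matrix.smul_mulVec, dotProduct_smul, smul_eq_mul]
    refine rp_mul ?_ (rp_sum _ _ fun i _ => rp_mul (hu i) (rp_mulVec hM hv i))
    rw [pow_two]
    exact rp_mul hcR hcR
  have hgrR : ∀ (P : HeightOneSpectrum R) (k : ℕ) (p : R[X]),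
      MIn (RP K P) (gr k n (fk K f) (fk K p)) := by
    intro P k p
    rw [fk, fk, ← gr_map _ hf]
    exact rp_map _
  refine ⟨Λ, hE, ?_, ?_, ?_⟩
  · intro y
    constructor
    · intro hy x hx
      apply rp_all
      intro P
      obtain ⟨c, p, hc0, hcR, hcR', hu, hg0, hg1, -⟩ := hall P
      rw [hform P, hg0]
      exact hint P c _ _ _ hcR' (hgrR P 0 p) ((hΛ x).1 hx P) ((hΛ y).1 hy P)
    · intro hy
      rw [hΛ]
      intro P
      obtain ⟨c, p, hc0, hcR, hcR', hu, hg0, hg1, -⟩ := hall P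
      obtain ⟨Γ, hΓ⟩ : ∃ Γ : Matrix (Fin n) (Fin n) R, Γ = gr 0 n f p := ⟨_, rfl⟩
      have hΓK : gr 0 n (fk K f) (fk K p) = Γ.map (algebraMap R K) := by
        rw [hΓ, gr_map _ hf]
      have hΓd : Γ.det ∉ P.asIdeal := by
        rw [hΓ]
        exact (lock R K P n f p hf hn hu).1
      obtain ⟨v, hv⟩ : ∃ v, v = (b P)⁻¹ *ᵥ y := ⟨_, rfl⟩
      rw [← hv]
      have h1 : ∀ i, (Γ.map (algebraMap R K) *ᵥ v) i ∈ RP K P := by
        intro i
        obtain ⟨x, hx⟩ : ∃ x : Fin n → K, x = b P *ᵥ (Pi.single i 1) := ⟨_, rfl⟩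
        have hbx : (b P)⁻¹ *ᵥ x = Pi.single i 1 := by
          rw [hx, Matrix.mulVec_mulVec, Matrix.nonsing_inv_mul _ (isUnit_iff_ne_zero.2 (hbd P)),
            Matrix.one_mulVec]
        obtain ⟨m, hm, hmx⟩ := hloc P x (fun j => by
          rw [hbx]
          by_cases hij : j = i
          · rw [hij, Pi.single_eq_same]
            exact rp_one
          · rw [Pi.single_eq_of_ne hij]
            exact rp_zero)
        obtain ⟨a, ha⟩ := hy (m • x) hmx
        have h2 : x ⬝ᵥ (gr 0 n (fk K f) α *ᵥ y) ∈ RP K P := by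
          refine ⟨m, hm, a, ?_⟩
          rw [ha, smul_dotProduct, Algebra.smul_def]
        rw [hform P, hg0, hbx, ← hv, hΓK, Matrix.smul_mulVec, dotProduct_smul, single_dotProduct,
          one_mul, smul_eq_mul] at h2
        have h3 : (Γ.map (algebraMap R K) *ᵥ v) i = (c * c) *
            (c⁻¹ ^ 2 * (Γ.map (algebraMap R K) *ᵥ v) i) := by
          field_simp
        rw [h3]
        exact rp_mul (rp_mul hcR hcR) h2
      have h2 : v = (algebraMap R K Γ.det)⁻¹ • (Γ.adjugate.map (algebraMap R K) *ᵥ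
          (Γ.map (algebraMap R K) *ᵥ v)) := by
        have h3 : algebraMap R K Γ.det ≠ 0 := alg_ne fun h => hΓd (by
          rw [h]
          exact P.asIdeal.zero_mem)
        have h4 : Γ.adjugate.map (algebraMap R K) * Γ.map (algebraMap R K) =
            algebraMap R K Γ.det • (1 : Matrix (Fin n) (Fin n) K) := by
          rw [← Matrix.map_mul, Matrix.adjugate_mul]
          ext i j
          rw [Matrix.map_apply, Matrix.smul_apply, Matrix.smul_apply, smul_eq_mul, smul_eq_mul,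
            map_mul]
          by_cases hij : i = j
          · rw [hij, Matrix.one_apply_eq, Matrix.one_apply_eq, map_one]
          · rw [Matrix.one_apply_ne hij, Matrix.one_apply_ne hij, map_zero]
        rw [Matrix.mulVec_mulVec, h4, Matrix.smul_mulVec, Matrix.one_mulVec, smul_smul,
          inv_mul_cancel₀ h3, one_smul]
      intro i
      rw [h2]
      exact rp_mul (rp_inv hΓd) (rp_mulVec (rp_map _) h1 i)
  · intro x hx y hy
    apply rp_all
    intro P
    obtain ⟨c, p, hc0, hcR, hcR', hu, hg0, hg1, -⟩ := hall P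
    rw [hform P, hg1]
    exact hint P c _ _ _ hcR' (hgrR P 1 p) ((hΛ x).1 hx P) ((hΛ y).1 hy P)
  · intro P hPT E G S' hE' hGd hG hS'
    obtain ⟨c, p, hc0, hcR, hcR', hu, hg0, hg1, hsq⟩ := hall P
    obtain ⟨κ, hκ⟩ : ∃ κ, κ = c⁻¹ • ((b P)⁻¹ * E) := ⟨_, rfl⟩
    have hEκ : E = b P * ((b P)⁻¹ * E) := by
      rw [← Matrix.mul_assoc, Matrix.mul_nonsing_inv _ (isUnit_iff_ne_zero.2 (hbd P)),
        Matrix.one_mul]
    have hk : ∀ (M N : Matrix (Fin n) (Fin n) K), (b P)ᵀ * M * b P = c⁻¹ ^ 2 • N →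
        κᵀ * N * κ = Eᵀ * M * E := by
      intro M N hMN
      have h1 : Eᵀ * M * E = ((b P)⁻¹ * E)ᵀ * ((b P)ᵀ * M * b P) * ((b P)⁻¹ * E) := by
        conv_lhs => rw [hEκ]
        rw [Matrix.transpose_mul (b P)]
        simp only [Matrix.mul_assoc]
      rw [h1, hMN, hκ, Matrix.transpose_smul]
      simp only [Matrix.smul_mul, Matrix.mul_smul, smul_smul]
      rw [pow_two]
    refine (lock R K P n f p hf hn hu).2 κ G S' ?_ hGd ?_ ?_ (hsq hPT)
    · intro i j
      rw [hκ, Matrix.smul_apply, smul_eq_mul]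
      refine rp_mul hcR' ?_
      exact (hΛ _).1 (hE' j) P i
    · rw [hk _ _ hg0, hG]
    · rw [hk _ _ hg1, hS']

end Pool.T1
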